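import Pool.Agent.W601.RP.Stm2

set_option autoImplicit false
open scoped Classical
open Filter Topology

namespace Pool.Agent.W179.RP.GSm

open Pool.Agent.W601.RP

noncomputable section

theorem N_pos (t : ℕ) : 2 ≤ N t := by
  unfold N
  have := Nat.factorial_pos (t + 1)
  omega

theorem single_red (t : ℕ) : Red (Finsupp.single t (1 : ℤ)) := by
  intro u
  have h2 : (2 : ℤ) ≤ (N u : ℤ) := by exact_mod_cast N_pos u
  by_cases h : t = u
  · subst h
    rw [Finsupp.single_eq_same]
    constructor <;> omega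
  · rw [Finsupp.single_eq_of_ne (fun h' => h h'.symm)]
    constructor <;> omega

/-- Reduction of one coefficient. -/
def rd (n d : ℤ) : ℤ := if n < 2 * d then d - n else if 2 * d ≤ -n then d + n else d

theorem rd_zero (n : ℤ) (hn : 0 < n) : rd n 0 = 0 := by
  unfold rd
  rw [if_neg (by omega), if_neg (by omega)]

theorem rd_red (n d : ℤ) (h1 : -n < d) (h2 : d < n) : -n < 2 * rd n d ∧ 2 * rd n d ≤ n := by
  unfold rd
  split_ifs <;> constructor <;> omega

theorem rd_eq_zero (n d : ℤ) (h1 : -n < d) (h2 : d < n) (h : rd n d = 0) : d = 0 := by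
  unfold rd at h
  split_ifs at h <;> omega

theorem rd_smul (n d : ℤ) (y : TT) (hy : n • y = 0) : rd n d • y = d • y := by
  unfold rd
  split_ifs
  · rw [sub_smul, hy, sub_zero]
  · rw [add_smul, hy, add_zero]
  · rfl

theorem inj (hsep : S_SEP) (hred : S_RED) (hnull : S_NULL) (k k' : ℕ →₀ ℤ) (hk : Red k)
    (hk' : Red k') (h : phi k = phi k') : k = k' := by
  have hN : ∀ t, (0 : ℤ) < (N t : ℤ) := fun t => by
    have := N_pos t
    have h2 : (2 : ℤ) ≤ (N t : ℤ) := by exact_mod_cast this
    omega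
  have hb : ∀ t, -(N t : ℤ) < (k - k') t ∧ (k - k') t < (N t : ℤ) := by
    intro t
    have a1 := hk t
    have a2 := hk' t
    have e : (k - k') t = k t - k' t := Finsupp.sub_apply k k' t
    rw [e]
    constructor <;> omega
  set d : ℕ →₀ ℤ := k - k' with hd
  let e : ℕ →₀ ℤ := Finsupp.onFinset d.support (fun t => rd (N t) (d t)) (by
    intro t ht
    rw [Finsupp.mem_support_iff]
    intro h0
    apply ht
    rw [h0]
    exact rd_zero _ (hN t))
  have he : ∀ t, e t = rd (N t) (d t) := fun t => rfl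
  have hpd : ∀ h ∈ H, pr d h = 0 := by
    intro g hg
    have h1 : pr k g = pr k' g := congrFun h ⟨g, hg⟩
    have h2 : pr k g = pr d g + pr k' g := by
      rw [← hred.2.1 d k' g, hd, sub_add_cancel]
    rw [h1] at h2
    exact (left_eq_add.mp (by rw [add_comm]; exact h2))
  have hpe : ∀ h ∈ H, pr e h = 0 := by
    intro g hg
    rw [← hpd g hg]
    have e1 : pr e g = ∑ t ∈ d.support, e t • g t := by
      unfold pr
      exact Finsupp.sum_of_support_subset e Finsupp.support_onFinset_subset _
        (fun t _ => zero_smul ℤ (g t))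
    have e2 : pr d g = ∑ t ∈ d.support, d t • g t := rfl
    rw [e1, e2]
    refine Finset.sum_congr rfl (fun t _ => ?_)
    rw [he t]
    apply rd_smul
    rw [natCast_zsmul]
    exact hnull.2 g hg t
  have he0 : e = 0 := by
    by_contra hne
    have hre : Red e := by
      intro t
      rw [he t]
      exact rd_red _ _ (hb t).1 (hb t).2
    obtain ⟨g, hg, hg0⟩ := hsep e hre hne
    exact hg0 (hpe g hg)
  have hd0 : d = 0 := by
    ext t
    have h1 : e t = 0 := by rw [he0]; rfl
    rw [he t] at h1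
    exact rd_eq_zero _ _ (hb t).1 (hb t).2 h1
  exact sub_eq_zero.mp hd0

theorem gs : S_RED → S_SEP → S_NULL → S_GS := by
  intro hred hsep hnull
  let P : (ℕ →₀ ℤ) →+ (↥H → TT) := AddMonoidHom.mk' phi (by
    intro a b
    funext g
    exact hred.2.1 a b g)
  have hP : ∀ k, P k = phi k := fun k => rfl
  have hmem : ∀ k, phi k ∈ GS := fun k => AddSubgroup.subset_closure ⟨k, rfl⟩
  have hle : GS ≤ P.range := by
    unfold GS
    rw [AddSubgroup.closure_le]
    rintro _ ⟨k, rfl⟩
    exact ⟨k, rfl⟩
  have h1 : ∀ g : ↥GS, ∃ k : ℕ →₀ ℤ, Red k ∧ (g : ↥H → TT) = phi k := by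
    intro g
    obtain ⟨k, hk⟩ := hle g.2
    obtain ⟨k', hk', hkk⟩ := hred.1 k
    refine ⟨k', hk', ?_⟩
    rw [← hk, hP]
    funext h
    exact hkk h h.2
  have hinj := inj hsep hred hnull
  refine ⟨h1, hmem, hinj, ?_, ?_⟩
  · have hs : Function.Surjective (fun k : ℕ →₀ ℤ => (⟨phi k, hmem k⟩ : ↥GS)) := by
      intro g
      obtain ⟨k, _, hk⟩ := h1 g
      exact ⟨k, Subtype.ext hk.symm⟩
    exact hs.countable
  · have hi : Function.Injective
        (fun t : ℕ => (⟨phi (Finsupp.single t 1), hmem _⟩ : ↥GS)) := by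
      intro t u htu
      have h2 : phi (Finsupp.single t 1) = phi (Finsupp.single u 1) := congrArg Subtype.val htu
      have h3 := hinj _ _ (single_red t) (single_red u) h2
      exact Finsupp.single_left_injective one_ne_zero h3
    exact Infinite.of_injective _ hi

end

end Pool.Agent.W179.RP.GSm
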